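import Pool.Agent.MP_d32a63_an.H58.Spec

/-! From the discrete Whitney field on the nodes to the fields of one cell. -/

open Set Filter Topology Metric Polynomial
open Complex (I)
open Pool.Agent.MP_d32a63_an.H95 (jet)
open Pool.Agent.MP_d32a63_an.H58

namespace Pool.Agent.MP_d32a63_an.H3

noncomputable section

lemma low_model (P Q : ℂ) (hP : ‖P‖ = 2) (hQ : ‖Q‖ = 2) (hPQ : ‖P - Q‖ = 2) (s t : ℝ) :
    |s| + |t| ≤ ‖(s : ℂ) * P + (t : ℂ) * Q‖ := by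
  have h1 : P.re ^ 2 + P.im ^ 2 = 4 := by
    have := Complex.sq_norm P
    rw [hP, Complex.normSq_apply] at this
    nlinarith
  have h2 : Q.re ^ 2 + Q.im ^ 2 = 4 := by
    have := Complex.sq_norm Q
    rw [hQ, Complex.normSq_apply] at this
    nlinarith
  have h3 : (P.re - Q.re) ^ 2 + (P.im - Q.im) ^ 2 = 4 := by
    have := Complex.sq_norm (P - Q)
    rw [hPQ, Complex.normSq_apply, Complex.sub_re, Complex.sub_im] at this
    nlinarith
  have h4 : P.re * Q.re + P.im * Q.im = 2 := by nlinarith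
  have h5 : ‖(s : ℂ) * P + (t : ℂ) * Q‖ ^ 2 = 4 * s ^ 2 + 4 * t ^ 2 + 4 * (s * t) := by
    rw [Complex.sq_norm, Complex.normSq_apply]
    simp only [Complex.add_re, Complex.add_im, Complex.re_ofReal_mul, Complex.im_ofReal_mul]
    linear_combination s ^ 2 * h1 + t ^ 2 * h2 + 2 * s * t * h4
  apply abs_le_of_sq_le_sq' ?_ (norm_nonneg _) |>.2
  rw [h5]
  have ha : |s| ^ 2 = s ^ 2 := sq_abs s
  have hb : |t| ^ 2 = t ^ 2 := sq_abs t
  have hc : -(s * t) ≤ |s| * |t| := by rw [← abs_mul]; exact neg_le_abs _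
  nlinarith [sq_nonneg (|s| - |t|)]

/-- A triangle of size comparable with `τ`. -/
structure Geo (τ : ℝ) (a b c : ℂ) : Prop where
  lo : ∀ s t : ℝ, τ * (|s| + |t|) ≤ 2 * ‖(s : ℂ) * (b - a) + (t : ℂ) * (c - a)‖
  hb : ‖b - a‖ ≤ 3 * τ
  hc : ‖c - a‖ ≤ 3 * τ

lemma geo_of (hB : BASIC) {τ : ℝ} (hτ : 0 < τ) {w a b c : ℂ} {i : ℤ}
    (ha : ‖a - (w + τ * acol (i - 1))‖ ≤ 1 / 3000 * τ)
    (hb : ‖b - (w + τ * acol (i + 1))‖ ≤ 1 / 3000 * τ)
    (hc : ‖c - (w + τ * acol i)‖ ≤ 1 / 3000 * τ) : Geo τ a b c := by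
  have hP : ‖acol (i + 1) - acol (i - 1)‖ = 2 := hB.ac3 _ _ (by omega)
  have hQ : ‖acol i - acol (i - 1)‖ = 2 := hB.ac3 _ _ (by omega)
  have hPQ : ‖(acol (i + 1) - acol (i - 1)) - (acol i - acol (i - 1))‖ = 2 := by
    rw [sub_sub_sub_cancel_right]; exact hB.ac3 _ _ (by omega)
  set P := acol (i + 1) - acol (i - 1) with hPd
  set Q := acol i - acol (i - 1) with hQd
  have hτn : ‖(τ : ℂ)‖ = τ := by rw [Complex.norm_real, Real.norm_of_nonneg hτ.le]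
  have e1 : ‖b - a - τ * P‖ ≤ 1 / 1500 * τ := by
    have : b - a - τ * P = (b - (w + τ * acol (i + 1))) - (a - (w + τ * acol (i - 1))) := by
      rw [hPd]; ring
    rw [this]
    linarith [norm_sub_le (b - (w + τ * acol (i + 1))) (a - (w + τ * acol (i - 1)))]
  have e2 : ‖c - a - τ * Q‖ ≤ 1 / 1500 * τ := by
    have : c - a - τ * Q = (c - (w + τ * acol i)) - (a - (w + τ * acol (i - 1))) := by
      rw [hQd]; ring
    rw [this]
    linarith [norm_sub_le (c - (w + τ * acol i)) (a - (w + τ * acol (i - 1)))]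
  refine ⟨fun s t => ?_, ?_, ?_⟩
  · have h0 := low_model P Q hP hQ hPQ s t
    have h1 : (τ : ℂ) * ((s : ℂ) * P + (t : ℂ) * Q) =
        ((s : ℂ) * (b - a) + (t : ℂ) * (c - a)) -
          ((s : ℂ) * (b - a - τ * P) + (t : ℂ) * (c - a - τ * Q)) := by ring
    have h2 : τ * ‖(s : ℂ) * P + (t : ℂ) * Q‖ ≤ ‖(s : ℂ) * (b - a) + (t : ℂ) * (c - a)‖ +
        ‖(s : ℂ) * (b - a - τ * P) + (t : ℂ) * (c - a - τ * Q)‖ := by
      have := norm_sub_le ((s : ℂ) * (b - a) + (t : ℂ) * (c - a))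
        ((s : ℂ) * (b - a - τ * P) + (t : ℂ) * (c - a - τ * Q))
      rwa [← h1, norm_mul, hτn] at this
    have h3 : ‖(s : ℂ) * (b - a - τ * P) + (t : ℂ) * (c - a - τ * Q)‖ ≤
        |s| * (1 / 1500 * τ) + |t| * (1 / 1500 * τ) := by
      refine (norm_add_le _ _).trans ?_
      rw [norm_mul, norm_mul, Complex.norm_real, Complex.norm_real, Real.norm_eq_abs,
        Real.norm_eq_abs]
      gcongr
    have h4 : τ * (|s| + |t|) ≤ τ * ‖(s : ℂ) * P + (t : ℂ) * Q‖ := by gcongr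
    have h5 : 0 ≤ τ * |s| := by positivity
    have h6 : 0 ≤ τ * |t| := by positivity
    nlinarith
  · have h1 : b - a = (b - a - τ * P) + τ * P := by ring
    have h2 := norm_add_le (b - a - τ * P) (τ * P)
    rw [← h1, norm_mul, hτn, hP] at h2
    linarith
  · have h1 : c - a = (c - a - τ * Q) + τ * Q := by ring
    have h2 := norm_add_le (c - a - τ * Q) (τ * Q)
    rw [← h1, norm_mul, hτn, hQ] at h2
    linarith

lemma ebar_eval {N : ℕ} (hN : 0 < N) (E0 E1 E2 : ℂ[X]) (m : ℤ × ℤ) (z : ℂ) :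
    (ebar N E0 E1 E2 m).eval z = E0.eval z +
      (((m.1 : ℝ) / N : ℝ) : ℂ) * (E1.eval z - E0.eval z) +
      (((m.2 : ℝ) / N : ℝ) : ℂ) * (E2.eval z - E0.eval z) := by
  have hN' : (N : ℂ) ≠ 0 := by exact_mod_cast hN.ne'
  simp only [ebar, eval_mul, eval_C, eval_add]
  push_cast
  field_simp
  ring

lemma dd_le {N : ℕ} (hN : 0 < N) {τ : ℝ} {E0 E1 E2 : ℂ[X]} {z : ℂ}
    (hG : Geo τ (E0.eval z) (E1.eval z) (E2.eval z)) (m m' : ℤ × ℤ) :
    τ / N * dd m m' ≤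
      2 * ‖(ebar N E0 E1 E2 m).eval z - (ebar N E0 E1 E2 m').eval z‖ + τ / N := by
  have hN' : (0 : ℝ) < N := by exact_mod_cast hN
  have h := hG.lo (((m.1 - m'.1 : ℤ) : ℝ) / N) (((m.2 - m'.2 : ℤ) : ℝ) / N)
  have he : (ebar N E0 E1 E2 m).eval z - (ebar N E0 E1 E2 m').eval z =
      ((((m.1 - m'.1 : ℤ) : ℝ) / N : ℝ) : ℂ) * (E1.eval z - E0.eval z) +
      ((((m.2 - m'.2 : ℤ) : ℝ) / N : ℝ) : ℂ) * (E2.eval z - E0.eval z) := by
    rw [ebar_eval hN, ebar_eval hN]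
    push_cast
    ring
  rw [he]
  rw [abs_div, abs_div, abs_of_pos hN'] at h
  have : τ / N * dd m m' =
      τ * (|((m.1 - m'.1 : ℤ) : ℝ)| / N + |((m.2 - m'.2 : ℤ) : ℝ)| / N) + τ / N := by
    unfold dd; ring
  rw [this]
  linarith

lemma dd_nonneg (m m' : ℤ × ℤ) : 0 ≤ dd m m' := by
  unfold dd; positivity

lemma dd_bd {N : ℕ} (hN : 0 < N) {τ : ℝ} (hτ : 0 < τ) {m m' : ℤ × ℤ} (hm : Nd N m)
    (hm' : Nd N m') : τ / N * dd m m' ≤ 3 * τ := by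
  have hN' : (0 : ℝ) < N := by exact_mod_cast hN
  obtain ⟨a1, a2, a3⟩ := hm
  obtain ⟨b1, b2, b3⟩ := hm'
  have h1 : |((m.1 - m'.1 : ℤ) : ℝ)| ≤ N := by
    have : |m.1 - m'.1| ≤ (N : ℤ) := abs_le.2 ⟨by omega, by omega⟩
    exact_mod_cast this
  have h2 : |((m.2 - m'.2 : ℤ) : ℝ)| ≤ N := by
    have : |m.2 - m'.2| ≤ (N : ℤ) := abs_le.2 ⟨by omega, by omega⟩
    exact_mod_cast this
  have h3 : (1 : ℝ) ≤ N := by exact_mod_cast hN
  have h4 : dd m m' ≤ 3 * N := by unfold dd; linarith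
  calc τ / N * dd m m' ≤ τ / N * (3 * N) := by gcongr
    _ = 3 * τ := by field_simp

lemma hull_coord {a b c u : ℂ} (hu : u ∈ hull a b c) :
    ∃ s t : ℝ, 0 ≤ s ∧ 0 ≤ t ∧ s + t ≤ 1 ∧ u = a + (s : ℂ) * (b - a) + (t : ℂ) * (c - a) := by
  let T : Set ℂ := {u | ∃ s t : ℝ, 0 ≤ s ∧ 0 ≤ t ∧ s + t ≤ 1 ∧
    u = a + (s : ℂ) * (b - a) + (t : ℂ) * (c - a)}
  have hT : Convex ℝ T := by
    rintro _ ⟨s, t, hs, ht, hst, rfl⟩ _ ⟨s', t', hs', ht', hst', rfl⟩ p q hp hq hpq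
    refine ⟨p * s + q * s', p * t + q * t', by positivity, by positivity, by nlinarith, ?_⟩
    have hq' : (q : ℂ) = 1 - p := by
      have : q = 1 - p := by linarith
      rw [this]; push_cast; ring
    simp only [Complex.real_smul]
    push_cast
    rw [hq']
    ring
  have hsub : ({a, b, c} : Set ℂ) ⊆ T := by
    intro v hv
    simp only [mem_insert_iff, mem_singleton_iff] at hv
    rcases hv with rfl | rfl | rfl
    · exact ⟨0, 0, le_rfl, le_rfl, by norm_num, by simp⟩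
    · exact ⟨1, 0, by norm_num, le_rfl, by norm_num, by simp⟩
    · exact ⟨0, 1, le_rfl, by norm_num, by norm_num, by simp⟩
  exact convexHull_min hsub hT hu

lemma floor_div {N : ℕ} (hN : 0 < N) (s : ℝ) : |s - (⌊N * s⌋ : ℝ) / N| ≤ 1 / N := by
  have hN' : (0 : ℝ) < N := by exact_mod_cast hN
  have h1 := Int.floor_le ((N : ℝ) * s)
  have h2 := Int.lt_floor_add_one ((N : ℝ) * s)
  have : s - (⌊N * s⌋ : ℝ) / N = (N * s - ⌊N * s⌋) / N := by field_simp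
  rw [this, abs_div, abs_of_pos hN']
  gcongr
  exact abs_le.2 ⟨by linarith, by linarith⟩

lemma node_ex {N : ℕ} (hN : 0 < N) {τ : ℝ} {E0 E1 E2 : ℂ[X]} {z : ℂ}
    (hG : Geo τ (E0.eval z) (E1.eval z) (E2.eval z)) {u : ℂ}
    (hu : u ∈ hull (E0.eval z) (E1.eval z) (E2.eval z)) :
    ∃ m, Nd N m ∧ ‖u - (ebar N E0 E1 E2 m).eval z‖ ≤ 6 * (τ / N) := by
  have hN' : (0 : ℝ) < N := by exact_mod_cast hN
  obtain ⟨s, t, hs, ht, hst, rfl⟩ := hull_coord hu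
  refine ⟨(⌊N * s⌋, ⌊N * t⌋), ⟨Int.floor_nonneg.2 (by positivity),
    Int.floor_nonneg.2 (by positivity), ?_⟩, ?_⟩
  · have h1 := Int.floor_le ((N : ℝ) * s)
    have h2 := Int.floor_le ((N : ℝ) * t)
    have h3 : ((⌊(N : ℝ) * s⌋ + ⌊(N : ℝ) * t⌋ : ℤ) : ℝ) ≤ ((N : ℤ) : ℝ) := by
      push_cast; nlinarith
    exact_mod_cast h3
  · rw [ebar_eval hN]
    have he : E0.eval z + (s : ℂ) * (E1.eval z - E0.eval z) + (t : ℂ) * (E2.eval z - E0.eval z) -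
        (E0.eval z + (((⌊N * s⌋ : ℝ) / N : ℝ) : ℂ) * (E1.eval z - E0.eval z) +
          (((⌊N * t⌋ : ℝ) / N : ℝ) : ℂ) * (E2.eval z - E0.eval z)) =
        ((s - (⌊N * s⌋ : ℝ) / N : ℝ) : ℂ) * (E1.eval z - E0.eval z) +
          ((t - (⌊N * t⌋ : ℝ) / N : ℝ) : ℂ) * (E2.eval z - E0.eval z) := by
      push_cast; ring
    rw [he]
    refine (norm_add_le _ _).trans ?_
    rw [norm_mul, norm_mul, Complex.norm_real, Complex.norm_real, Real.norm_eq_abs,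
      Real.norm_eq_abs]
    have h1 := floor_div hN s
    have h2 := floor_div hN t
    have h3 := hG.hb
    have h4 := hG.hc
    calc _ ≤ 1 / N * (3 * τ) + 1 / N * (3 * τ) := by gcongr
      _ = 6 * (τ / N) := by ring

lemma ebar_bd {N : ℕ} (hN : 0 < N) {E0 E1 E2 : ℂ[X]} {z : ℂ} {K0 : ℝ} {m : ℤ × ℤ} (hm : Nd N m)
    (h0 : ‖E0.eval z‖ ≤ K0) (h1 : ‖E1.eval z‖ ≤ K0) (h2 : ‖E2.eval z‖ ≤ K0) :
    ‖(ebar N E0 E1 E2 m).eval z‖ ≤ K0 := by
  have hN' : (0 : ℝ) < N := by exact_mod_cast hN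
  obtain ⟨a1, a2, a3⟩ := hm
  have b1 : (0 : ℝ) ≤ (m.1 : ℝ) / N := div_nonneg (by exact_mod_cast a1) hN'.le
  have b2 : (0 : ℝ) ≤ (m.2 : ℝ) / N := div_nonneg (by exact_mod_cast a2) hN'.le
  have b3 : (0 : ℝ) ≤ 1 - (m.1 : ℝ) / N - (m.2 : ℝ) / N := by
    have : ((m.1 + m.2 : ℤ) : ℝ) ≤ ((N : ℤ) : ℝ) := by exact_mod_cast a3
    push_cast at this
    have h : (m.1 : ℝ) / N + (m.2 : ℝ) / N ≤ 1 := by
      rw [← add_div, div_le_one hN']; exact this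
    linarith
  rw [ebar_eval hN]
  set s : ℝ := (m.1 : ℝ) / N
  set t : ℝ := (m.2 : ℝ) / N
  have he : E0.eval z + (s : ℂ) * (E1.eval z - E0.eval z) + (t : ℂ) * (E2.eval z - E0.eval z) =
      ((1 - s - t : ℝ) : ℂ) * E0.eval z + (s : ℂ) * E1.eval z + (t : ℂ) * E2.eval z := by
    push_cast; ring
  rw [he]
  refine norm_add₃_le.trans ?_
  rw [norm_mul, norm_mul, norm_mul, Complex.norm_real, Complex.norm_real, Complex.norm_real,
    Real.norm_of_nonneg b1, Real.norm_of_nonneg b2, Real.norm_of_nonneg b3]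
  calc _ ≤ (1 - s - t) * K0 + s * K0 + t * K0 := by gcongr
    _ = K0 := by ring

/-- Second order expansion of a bounded polynomial. -/
lemma poly_exp (hB : BASIC) {P : ℂ[X]} {x : ℂ} {M : ℝ}
    (hP : ∀ z ∈ closedBall x 2, ‖P.eval z‖ ≤ M) :
    ‖jet P 1 x‖ ≤ M ∧ ∀ z ∈ closedBall x 1, ‖P.eval z - P.eval x‖ ≤ M * ‖z - x‖ ∧
      ‖P.eval z - P.eval x - jet P 1 x * (z - x)‖ ≤ 2 * M * ‖z - x‖ ^ 2 := by
  have hj : ∀ i, ∀ y ∈ closedBall x 1, ‖jet P i y‖ ≤ i.factorial * M := by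
    intro i y hy
    have := hB.cau P y 1 M i one_pos fun z hz => hP z (by
      rw [mem_closedBall] at *
      linarith [dist_triangle z y x])
    simpa using this
  have hx : x ∈ closedBall x (1 : ℝ) := mem_closedBall_self zero_le_one
  refine ⟨by simpa using hj 1 x hx, fun z hz => ⟨?_, ?_⟩⟩
  · have := hB.lip P 0 (closedBall x 1) M (convex_closedBall x 1)
      (fun y hy => by simpa using hj 1 y hy) x hx z hz
    rwa [hB.j0, hB.j0] at this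
  · exact hB.snd P (closedBall x 1) (2 * M) (convex_closedBall x 1)
      (fun y hy => by simpa [Nat.factorial] using hj 2 y hy) x hx z hz

lemma hull_swap (a b c : ℂ) : hull a c b = hull a b c := by
  unfold hull
  rw [Set.pair_comm c b]

/-- The node data at one point `z`. -/
structure At (N : ℕ) (K σ : ℝ) (P g ν S : ℤ × ℤ → ℂ) : Prop where
  K0 : 0 < K
  s0 : 0 < σ
  s1 : σ ≤ 1
  hdd : ∀ m m', σ * dd m m' ≤ 2 * ‖P m - P m'‖ + σ
  hd3 : ∀ m m', Nd N m → Nd N m' → σ * dd m m' ≤ 3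
  hS : ∀ m, Nd N m → ‖S m‖ ≤ 21
  val : ∀ m, Nd N m → ‖g m - S m‖ ≤ K * σ
  bd : ∀ m, Nd N m → ‖ν m‖ ≤ K
  lip : ∀ m m', Nd N m → Nd N m' → ‖ν m' - ν m‖ ≤ K * (σ * dd m m')
  tay : ∀ m m', Nd N m → Nd N m' → ‖g m' - g m - ν m * (P m' - P m)‖ ≤ K * (σ * dd m m') ^ 2

lemma At.ex {N : ℕ} {K σ : ℝ} {P g ν S : ℤ × ℤ → ℂ} (h : At N K σ P g ν S) {m : ℤ × ℤ} {u : ℂ}
    (hm : Nd N m) (hu : ‖u - P m‖ ≤ 6 * σ) : ‖g m + ν m * (u - P m) - S m‖ ≤ 7 * K * σ := by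
  have h1 : g m + ν m * (u - P m) - S m = (g m - S m) + ν m * (u - P m) := by ring
  rw [h1]
  refine (norm_add_le _ _).trans ?_
  rw [norm_mul]
  have h2 := h.val m hm
  have h3 := h.bd m hm
  have h4 := h.K0
  calc _ ≤ K * σ + K * (6 * σ) := by gcongr
    _ = 7 * K * σ := by ring

lemma At.wh {N : ℕ} {K σ : ℝ} {P g ν S : ℤ × ℤ → ℂ} (h : At N K σ P g ν S) {A : Set ℂ}
    {sel : ℂ → ℤ × ℤ} (hsel : ∀ u ∈ A, Nd N (sel u) ∧ ‖u - P (sel u)‖ ≤ 6 * σ) {K' : ℝ}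
    (hK' : 21 + 775 * K ≤ K') :
    Wh K' σ (fun u => g (sel u) + ν (sel u) * (u - P (sel u))) (fun u => ν (sel u)) A := by
  have hK := h.K0
  have hσ := h.s0
  have hσ1 := h.s1
  have key : ∀ x ∈ A, ∀ y ∈ A, σ * dd (sel x) (sel y) ≤ 25 * (‖y - x‖ + σ) := by
    intro x hx y hy
    have h1 := h.hdd (sel x) (sel y)
    have h2 : P (sel x) - P (sel y) = (y - P (sel y)) - (x - P (sel x)) - (y - x) := by ring
    have h3 := norm_sub_le ((y - P (sel y)) - (x - P (sel x))) (y - x)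
    have h4 := norm_sub_le (y - P (sel y)) (x - P (sel x))
    rw [← h2] at h3
    have h5 := (hsel x hx).2
    have h6 := (hsel y hy).2
    have h7 := norm_nonneg (y - x)
    linarith
  refine ⟨fun x hx => ?_, fun x hx => ?_, fun x hx y hy => ?_, fun x hx y hy => ?_⟩
  · have h1 := h.ex (hsel x hx).1 (hsel x hx).2
    have h2 := h.hS _ (hsel x hx).1
    have h3 := norm_add_le (g (sel x) + ν (sel x) * (x - P (sel x)) - S (sel x)) (S (sel x))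
    rw [sub_add_cancel] at h3
    have h4 : 7 * K * σ ≤ 7 * K * 1 := by gcongr
    linarith
  · have := h.bd _ (hsel x hx).1
    linarith
  · have h1 := h.lip _ _ (hsel x hx).1 (hsel y hy).1
    have h2 := key x hx y hy
    have h3 : 0 ≤ ‖y - x‖ + σ := by positivity
    calc _ ≤ K * (σ * dd (sel x) (sel y)) := h1
      _ ≤ K * (25 * (‖y - x‖ + σ)) := by gcongr
      _ = (25 * K) * (‖y - x‖ + σ) := by ring
      _ ≤ K' * (‖y - x‖ + σ) := by gcongr; linarith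
  · have h1 := h.lip _ _ (hsel x hx).1 (hsel y hy).1
    have h2 := key x hx y hy
    have h3 : 0 ≤ ‖y - x‖ := norm_nonneg _
    have h4 := h.tay _ _ (hsel x hx).1 (hsel y hy).1
    have h5 := (hsel y hy).2
    have h6 : 0 ≤ σ * dd (sel x) (sel y) := mul_nonneg hσ.le (dd_nonneg _ _)
    have he : g (sel y) + ν (sel y) * (y - P (sel y)) - (g (sel x) + ν (sel x) * (x - P (sel x))) -
        ν (sel x) * (y - x) = (g (sel y) - g (sel x) - ν (sel x) * (P (sel y) - P (sel x))) +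
        (ν (sel y) - ν (sel x)) * (y - P (sel y)) := by ring
    show ‖g (sel y) + ν (sel y) * (y - P (sel y)) - (g (sel x) + ν (sel x) * (x - P (sel x))) -
        ν (sel x) * (y - x)‖ ≤ _
    rw [he]
    refine (norm_add_le _ _).trans ?_
    rw [norm_mul]
    set D := ‖y - x‖ + σ with hD
    have hD0 : 0 ≤ D := by positivity
    have h7 : 6 * σ ≤ 6 * D := by rw [hD]; linarith
    calc _ ≤ K * (σ * dd (sel x) (sel y)) ^ 2 + K * (σ * dd (sel x) (sel y)) * (6 * σ) := by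
          gcongr
      _ ≤ K * (25 * D) ^ 2 + K * (25 * D) * (6 * D) := by gcongr
      _ = (775 * K) * D ^ 2 := by ring
      _ ≤ K' * D ^ 2 := by gcongr; linarith

lemma At.nd {N : ℕ} {K σ : ℝ} {P g ν S : ℤ × ℤ → ℂ} (h : At N K σ P g ν S) {m m0 : ℤ × ℤ} {u : ℂ}
    (hm : Nd N m) (hm0 : Nd N m0) (hu : ‖u - P m‖ ≤ 6 * σ) :
    ‖g m + ν m * (u - P m) - S m0‖ ≤ 52 * K * (‖u - P m0‖ + σ) := by
  have hK := h.K0
  have hσ := h.s0
  have h0 : 0 ≤ ‖u - P m0‖ := norm_nonneg _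
  set D := ‖u - P m0‖ + σ with hD
  have hD0 : 0 ≤ D := by positivity
  have hsD : σ ≤ D := by rw [hD]; linarith
  have h1 : ‖P m - P m0‖ ≤ 6 * D := by
    have he : P m - P m0 = (u - P m0) - (u - P m) := by ring
    have := norm_sub_le (u - P m0) (u - P m)
    rw [← he] at this
    rw [hD]; linarith
  have h2 : σ * dd m0 m ≤ 13 * D := by
    have := h.hdd m0 m
    rw [norm_sub_rev] at this
    linarith
  have h3 := h.hd3 m0 m hm0 hm
  have h4 : 0 ≤ σ * dd m0 m := mul_nonneg hσ.le (dd_nonneg _ _)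
  have h5 := h.tay m0 m hm0 hm
  have h6 : K * (σ * dd m0 m) ^ 2 ≤ 39 * K * D := by
    calc K * (σ * dd m0 m) ^ 2 = K * ((σ * dd m0 m) * (σ * dd m0 m)) := by ring
      _ ≤ K * (3 * (13 * D)) := by gcongr
      _ = 39 * K * D := by ring
  have h7 : ‖ν m0 * (P m - P m0)‖ ≤ K * (6 * D) := by
    rw [norm_mul]
    have := h.bd m0 hm0
    gcongr
  have h8 : ‖ν m * (u - P m)‖ ≤ K * (6 * D) := by
    rw [norm_mul]
    have := h.bd m hm
    have h9 : ‖u - P m‖ ≤ 6 * D := by linarith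
    gcongr
  have h9 : ‖g m0 - S m0‖ ≤ K * D := (h.val m0 hm0).trans (by gcongr)
  have he : g m + ν m * (u - P m) - S m0 = (g m - g m0 - ν m0 * (P m - P m0)) +
      ν m0 * (P m - P m0) + (ν m * (u - P m) + (g m0 - S m0)) := by ring
  rw [he]
  refine norm_add₃_le.trans ?_
  have := norm_add_le (ν m * (u - P m)) (g m0 - S m0)
  linarith

/-- The expansion in `z` at a fixed value `u`. -/
lemma cr_abs {N : ℕ} {K σ ℓ K0 : ℝ} {P g ν S P' g' ν' S' : ℤ × ℤ → ℂ} (h : At N K σ P g ν S)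
    (h' : At N K σ P' g' ν' S') {i0 i1 : ℤ × ℤ} {u s p η : ℂ} (hi0 : Nd N i0) (hi1 : Nd N i1)
    (hℓ : 0 < ℓ) (hℓ1 : ℓ ≤ 1) (hK0 : 0 < K0) (hσℓ : σ ≤ ℓ ^ 2)
    (hu0 : ‖u - P i0‖ ≤ 6 * σ) (hu1 : ‖u - P' i1‖ ≤ 6 * σ)
    (hP1 : ‖P' i0 - P i0‖ ≤ 2 * K0 * ℓ) (hP2 : ‖P' i0 - P i0 - p * η‖ ≤ 8 * K0 * ℓ ^ 2)
    (hS2 : ‖S' i0 - S i0 - s * η‖ ≤ 168 * ℓ ^ 2) (hmv : ‖ν' i0 - ν i0‖ ≤ K * ℓ) :
    ‖g' i1 + ν' i1 * (u - P' i1) - (g i0 + ν i0 * (u - P i0)) - (s - ν i0 * p) * η‖ ≤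
      (168 + K * ((4 * K0 + 25) ^ 2 + 6 * (4 * K0 + 25) + 10 * K0 + 8)) * ℓ ^ 2 := by
  have hK := h.K0
  have hσ := h.s0
  have hσ1 : σ ≤ ℓ := hσℓ.trans (by nlinarith)
  set C1 := 4 * K0 + 25 with hC1
  have hC0 : 0 < C1 := by positivity
  have h1 : ‖u - P' i0‖ ≤ (6 + 2 * K0) * ℓ := by
    have he : u - P' i0 = (u - P i0) - (P' i0 - P i0) := by ring
    have := norm_sub_le (u - P i0) (P' i0 - P i0)
    rw [← he] at this
    linarith
  have h2 : σ * dd i0 i1 ≤ C1 * ℓ := by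
    have h3 := h'.hdd i0 i1
    have he : P' i0 - P' i1 = (u - P' i1) - (u - P' i0) := by ring
    have := norm_sub_le (u - P' i1) (u - P' i0)
    rw [← he] at this
    rw [hC1]
    linarith
  have h4 : 0 ≤ σ * dd i0 i1 := mul_nonneg hσ.le (dd_nonneg _ _)
  have e1 : ‖g' i1 - g' i0 - ν' i0 * (P' i1 - P' i0)‖ ≤ K * C1 ^ 2 * ℓ ^ 2 := by
    calc _ ≤ K * (σ * dd i0 i1) ^ 2 := h'.tay i0 i1 hi0 hi1
      _ ≤ K * (C1 * ℓ) ^ 2 := by gcongr
      _ = _ := by ring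
  have e2 : ‖(ν' i1 - ν' i0) * (u - P' i1)‖ ≤ K * (6 * C1) * ℓ ^ 2 := by
    rw [norm_mul]
    have h5 := h'.lip i0 i1 hi0 hi1
    have h6 : ‖u - P' i1‖ ≤ 6 * ℓ := by linarith
    calc _ ≤ K * (σ * dd i0 i1) * (6 * ℓ) := by gcongr
      _ ≤ K * (C1 * ℓ) * (6 * ℓ) := by gcongr
      _ = _ := by ring
  have e3 : ‖g' i0 - S' i0‖ ≤ K * ℓ ^ 2 := (h'.val i0 hi0).trans (by gcongr)
  have e4 : ‖g i0 - S i0‖ ≤ K * ℓ ^ 2 := (h.val i0 hi0).trans (by gcongr)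
  have e5 : ‖(ν' i0 - ν i0) * (u - P' i0)‖ ≤ K * (6 + 2 * K0) * ℓ ^ 2 := by
    rw [norm_mul]
    calc _ ≤ K * ℓ * ((6 + 2 * K0) * ℓ) := by gcongr
      _ = _ := by ring
  have e6 : ‖ν i0 * (P' i0 - P i0 - p * η)‖ ≤ K * (8 * K0) * ℓ ^ 2 := by
    rw [norm_mul]
    have h5 := h.bd i0 hi0
    calc _ ≤ K * (8 * K0 * ℓ ^ 2) := by gcongr
      _ = _ := by ring
  have he : g' i1 + ν' i1 * (u - P' i1) - (g i0 + ν i0 * (u - P i0)) - (s - ν i0 * p) * η =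
      ((g' i1 - g' i0 - ν' i0 * (P' i1 - P' i0)) + (ν' i1 - ν' i0) * (u - P' i1) +
        (g' i0 - S' i0)) + ((S' i0 - S i0 - s * η) - (g i0 - S i0)) +
        ((ν' i0 - ν i0) * (u - P' i0) - ν i0 * (P' i0 - P i0 - p * η)) := by ring
  rw [he]
  refine norm_add₃_le.trans ?_
  have t1 := norm_add₃_le (a := g' i1 - g' i0 - ν' i0 * (P' i1 - P' i0))
    (b := (ν' i1 - ν' i0) * (u - P' i1)) (c := g' i0 - S' i0)
  have t2 := norm_sub_le (S' i0 - S i0 - s * η) (g i0 - S i0)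
  have t3 := norm_sub_le ((ν' i0 - ν i0) * (u - P' i0)) (ν i0 * (P' i0 - P i0 - p * η))
  have t4 : (168 + K * (C1 ^ 2 + 6 * C1 + 10 * K0 + 8)) * ℓ ^ 2 =
      K * C1 ^ 2 * ℓ ^ 2 + K * (6 * C1) * ℓ ^ 2 + K * ℓ ^ 2 + (168 * ℓ ^ 2 + K * ℓ ^ 2) +
        (K * (6 + 2 * K0) * ℓ ^ 2 + K * (8 * K0) * ℓ ^ 2) := by ring
  rw [t4]
  linarith

theorem cfr : H58.R_CFR := by
  intro hB hH r hr K0 τ K hK0 hτ hK
  set C2 : ℝ := (4 * K0 + 25) ^ 2 + 6 * (4 * K0 + 25) + 10 * K0 + 8 with hC2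
  have hC20 : 0 < C2 := by positivity
  have hKC : 0 < K * C2 := by positivity
  have hKK : 0 < K * K0 := by positivity
  refine ⟨168 + 775 * K + K * C2 + K * K0, by linarith, ?_⟩
  intro N ε ℓ ω x w i E0 E1 E2 S g ν hC hS hF
  have hN := hC.N0
  have hN' : (0 : ℝ) < N := by exact_mod_cast hN
  have hℓ := hC.l0
  have hℓ1 := hC.l1
  have hσ : 0 < τ / N := by positivity
  have hσℓ : τ / N ≤ ℓ ^ 2 := by
    rw [hC.sig]
    have h1 : (ℓ / 8) ^ r ≤ (ℓ / 8) ^ 2 :=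
      pow_le_pow_of_le_one (by positivity) (by linarith) hr
    have h2 : (ℓ / 8) ^ 2 ≤ ℓ ^ 2 := by gcongr; linarith
    have h3 := hC.e1
    calc ε * (ℓ / 8) ^ r ≤ 1 * (ℓ / 8) ^ r := by gcongr
      _ ≤ ℓ ^ 2 := by linarith
  have hσ1 : τ / N ≤ 1 := hσℓ.trans (by nlinarith)
  have s3 : closedBall x (2 * ℓ) ⊆ closedBall x (3 * ℓ) := closedBall_subset_closedBall (by linarith)
  have s2 : closedBall x (2 * ℓ) ⊆ closedBall x 2 := closedBall_subset_closedBall (by linarith)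
  have s1 : closedBall x (2 * ℓ) ⊆ closedBall x 1 := closedBall_subset_closedBall (by linarith)
  have hx : x ∈ closedBall x (2 * ℓ) := mem_closedBall_self (by positivity)
  have hG : ∀ z ∈ closedBall x (2 * ℓ), Geo τ (E0.eval z) (E1.eval z) (E2.eval z) := by
    intro z hz
    obtain ⟨h0, h1, h2⟩ := hC.near z (s3 hz)
    exact geo_of hB hτ h0 h1 h2
  have hA : ∀ z ∈ closedBall x (2 * ℓ), At N K (τ / N) (fun m => (ebar N E0 E1 E2 m).eval z)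
      (fun m => g m z) (fun m => ν m z) (fun m => (S m).eval z) := by
    intro z hz
    refine ⟨hK, hσ, hσ1, dd_le hN (hG z hz), fun m m' hm hm' => ?_,
      fun m hm => hS m hm z (s2 hz), hF.val z (s3 hz), hF.bd z (s3 hz), hF.lip z (s3 hz),
      hF.tay z (s3 hz)⟩
    have := dd_bd hN hτ hm hm'
    have := hC.t1
    linarith
  have hex : ∀ z u : ℂ, ∃ m : ℤ × ℤ, z ∈ closedBall x (2 * ℓ) →
      u ∈ hull (E0.eval z) (E1.eval z) (E2.eval z) →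
      Nd N m ∧ ‖u - (ebar N E0 E1 E2 m).eval z‖ ≤ 6 * (τ / N) := by
    intro z u
    by_cases h : z ∈ closedBall x (2 * ℓ) ∧ u ∈ hull (E0.eval z) (E1.eval z) (E2.eval z)
    · obtain ⟨m, hm⟩ := node_ex hN (hG z h.1) h.2
      exact ⟨m, fun _ _ => hm⟩
    · exact ⟨(0, 0), fun h1 h2 => absurd ⟨h1, h2⟩ h⟩
  choose sel hsel using hex
  have hball : ∀ z ∈ closedBall x (2 * ℓ),
      ball (w + τ * actr) (τ / 20) ⊆ hull (E0.eval z) (E1.eval z) (E2.eval z) := by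
    intro z hz
    obtain ⟨h0, h1, h2⟩ := hC.near z (s3 hz)
    rw [← hull_swap]
    refine hH τ w (i - 1) _ _ _ ⟨hτ, hC.t1, by linarith, ?_, ?_⟩
    · rw [sub_add_cancel]; linarith
    · rw [show i - 1 + 2 = i + 1 by ring]; linarith
  have hEb : ∀ m, Nd N m → ∀ z ∈ closedBall x 2, ‖(ebar N E0 E1 E2 m).eval z‖ ≤ K0 := by
    intro m hm z hz
    obtain ⟨h0, h1, h2⟩ := hC.bd z hz
    exact ebar_bd hN hm h0 h1 h2
  refine ⟨fun z u => g (sel z u) z + ν (sel z u) z * (u - (ebar N E0 E1 E2 (sel z u)).eval z),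
    fun z u => ν (sel z u) z,
    fun u => jet (S (sel x u)) 1 x - ν (sel x u) x * jet (ebar N E0 E1 E2 (sel x u)) 1 x,
    fun z hz => ?_, fun z hz m hm u hu => ?_, fun z hz u hu => ?_, fun z hz u hu => ?_,
    fun u hu => ?_⟩
  · exact (hA z hz).wh (sel := sel z) (fun u hu => hsel z u hz hu) (by linarith)
  · refine ((hA z hz).nd (hsel z u hz hu).1 hm (hsel z u hz hu).2).trans ?_
    gcongr
    linarith
  · refine ⟨sel z u, (hsel z u hz hu).1,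
      ((hA z hz).ex (hsel z u hz hu).1 (hsel z u hz hu).2).trans ?_⟩
    gcongr
    linarith
  · obtain ⟨hi0, hu0⟩ := hsel x u hx (hball x hx hu)
    obtain ⟨hi1, hu1⟩ := hsel z u hz (hball z hz hu)
    have hzx : ‖z - x‖ ≤ 2 * ℓ := by rwa [mem_closedBall, dist_eq_norm] at hz
    obtain ⟨p1, p2⟩ := (poly_exp hB (hEb _ hi0)).2 z (s1 hz)
    obtain ⟨-, q2⟩ := (poly_exp hB (hS _ hi0)).2 z (s1 hz)
    have hsq : ‖z - x‖ ^ 2 ≤ (2 * ℓ) ^ 2 := by gcongr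
    refine (cr_abs (hA x hx) (hA z hz) hi0 hi1 hℓ (by linarith) hK0 hσℓ hu0 hu1
      (p1.trans ?_) (p2.trans ?_) (q2.trans ?_) (hF.mv z (s3 hz) _ hi0)).trans ?_
    · calc K0 * ‖z - x‖ ≤ K0 * (2 * ℓ) := by gcongr
        _ = _ := by ring
    · calc 2 * K0 * ‖z - x‖ ^ 2 ≤ 2 * K0 * (2 * ℓ) ^ 2 := by gcongr
        _ = _ := by ring
    · linarith
    · rw [← hC2]
      exact mul_le_mul_of_nonneg_right (by linarith) (by positivity)
  · obtain ⟨hi0, -⟩ := hsel x u hx (hball x hx hu)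
    have p1 := (poly_exp hB (hEb _ hi0)).1
    have q1 := (poly_exp hB (hS _ hi0)).1
    have h1 := hF.bd x (s3 hx) _ hi0
    refine (norm_sub_le _ _).trans ?_
    rw [norm_mul]
    have h2 : ‖ν (sel x u) x‖ * ‖jet (ebar N E0 E1 E2 (sel x u)) 1 x‖ ≤ K * K0 := by gcongr
    linarith

end

end Pool.Agent.MP_d32a63_an.H3
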